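import Pool.Agent.H98.SLN.Targets
import Pool.Agent.H17.CG.PRE

/-!
Module EXQ of the board sln_modules.
-/

set_option autoImplicit false

open MeasureTheory ProbabilityTheory Filter Topology
open scoped ENNReal
open Pool.Agent.H95 Pool.Agent.H95.Cop
open Pool.Agent.H55.CG (pz VV Mo)
open Pool.Agent.H98.CE (pc WB HK OBJ)
open Pool.Agent.H96.Cop (ex pk Wn chargeLaw)
open Pool.Agent.H99.CE (NX)
open Pool.Agent.H98.SLN

namespace Pool.Agent.H18.SLN

/-- The cells. -/
noncomputable def xi (ℓ : ℕ) (x : ℕ → ℝ) (c : ℕ) : ℝ := H x (c * ℓ) ((c + 1) * ℓ) / 2 + 1 / 2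

theorem sum_cells (ℓ : ℕ) (x t : ℕ → ℝ) (n : ℕ) :
    ∑ c ∈ Finset.range n, t c * xi ℓ x c =
      (∑ i ∈ Finset.range (n * ℓ), t (i / ℓ) / 2 * x i) + ∑ c ∈ Finset.range n, t c / 2 := by
  induction n with
  | zero => simp
  | succ n ih =>
    rw [Finset.sum_range_succ, ih, Finset.sum_range_succ (fun c => t c / 2)]
    have h1 : n * ℓ ≤ (n + 1) * ℓ := Nat.mul_le_mul_right _ (Nat.le_succ n)
    rw [← Finset.sum_range_add_sum_Ico _ h1]
    have h2 : ∑ i ∈ Finset.Ico (n * ℓ) ((n + 1) * ℓ), t (i / ℓ) / 2 * x i =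
        t n / 2 * H x (n * ℓ) ((n + 1) * ℓ) := by
      unfold H
      rw [Finset.mul_sum]
      refine Finset.sum_congr rfl fun i hi => ?_
      rw [Finset.mem_Ico] at hi
      have : i / ℓ = n := Nat.div_eq_of_lt_le hi.1 hi.2
      rw [this]
    rw [h2]
    unfold xi
    ring

theorem prod_cells (ℓ : ℕ) (ν : Measure ℝ) (t : ℕ → ℝ) (n : ℕ) :
    ∏ i ∈ Finset.range (n * ℓ), Mo ν (t (i / ℓ) / 2) = ∏ c ∈ Finset.range n, Mo ν (t c / 2) ^ ℓ := by
  induction n with
  | zero => simp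
  | succ n ih =>
    rw [Finset.prod_range_succ, ← ih]
    have h1 : n * ℓ ≤ (n + 1) * ℓ := Nat.mul_le_mul_right _ (Nat.le_succ n)
    rw [← Finset.prod_range_mul_prod_Ico _ h1]
    congr 1
    rw [Finset.prod_congr rfl (g := fun _ => Mo ν (t n / 2))]
    · rw [Finset.prod_const, Nat.card_Ico]
      congr 1
      rw [Nat.add_mul, one_mul, Nat.add_sub_cancel_left]
    · intro i hi
      rw [Finset.mem_Ico] at hi
      have : i / ℓ = n := Nat.div_eq_of_lt_le hi.1 hi.2
      rw [this]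

theorem gen (ν : Measure ℝ) [IsProbabilityMeasure ν]
    (hν : ∀ t : ℝ, Integrable (fun z => Real.exp (t * z)) ν) (ℓ : ℕ) (t : ℕ → ℝ) (n : ℕ) :
    Integrable (fun x : ℕ → ℝ => Real.exp (∑ c ∈ Finset.range n, t c * xi ℓ x c)) (iid ν) ∧
    ∫ x : ℕ → ℝ, Real.exp (∑ c ∈ Finset.range n, t c * xi ℓ x c) ∂(iid ν) =
      ∏ c ∈ Finset.range n, AA ν ℓ (t c) := by
  obtain ⟨h1, h2⟩ := Pool.Agent.H17.CG.pf_PRE ν hν (fun i => t (i / ℓ) / 2) (n * ℓ)
  have e : (fun x : ℕ → ℝ => Real.exp (∑ c ∈ Finset.range n, t c * xi ℓ x c)) =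
      fun x : ℕ → ℝ => Real.exp (∑ i ∈ Finset.range (n * ℓ), t (i / ℓ) / 2 * x i) *
        Real.exp (∑ c ∈ Finset.range n, t c / 2) := by
    funext x
    rw [sum_cells, Real.exp_add]
  rw [e]
  refine ⟨h1.mul_const _, ?_⟩
  rw [integral_mul_const, h2, prod_cells, Real.exp_sum, mul_comm, ← Finset.prod_mul_distrib]
  rfl

theorem AA_pos (ν : Measure ℝ) [IsProbabilityMeasure ν]
    (hν : ∀ t : ℝ, Integrable (fun z => Real.exp (t * z)) ν) (ℓ : ℕ) (u : ℝ) : 0 < AA ν ℓ u := by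
  unfold AA Mo
  have : 0 < ∫ z, Real.exp (u / 2 * z) ∂ν := integral_exp_pos (hν _)
  positivity

theorem AA_zero (ν : Measure ℝ) [IsProbabilityMeasure ν] (ℓ : ℕ) : AA ν ℓ 0 = 1 := by
  unfold AA Mo
  simp

theorem cD_eq (ℓ : ℕ) (x : ℕ → ℝ) (a b : ℕ) (hab : a ≤ b) :
    cD ℓ x a b = ∑ c ∈ Finset.Ico a (b + 1), xi ℓ x c := by
  have key : ∀ m : ℕ, a ≤ m → ∑ c ∈ Finset.Ico a m, xi ℓ x c =
      H x (a * ℓ) (m * ℓ) / 2 + ((m : ℝ) - a) / 2 := by
    intro m hm
    induction m, hm using Nat.le_induction with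
    | base =>
      unfold H
      simp
    | succ m hm ih =>
      rw [Finset.sum_Ico_succ_top hm, ih]
      have h1 : H x (a * ℓ) ((m + 1) * ℓ) = H x (a * ℓ) (m * ℓ) + H x (m * ℓ) ((m + 1) * ℓ) := by
        unfold H
        rw [Finset.sum_Ico_consecutive _ (Nat.mul_le_mul_right _ hm)
          (Nat.mul_le_mul_right _ (Nat.le_succ m))]
      unfold xi
      rw [h1]
      push_cast
      ring
  rw [key (b + 1) (by omega)]
  unfold cD
  push_cast
  ring

theorem Ico_as_range (n a b : ℕ) (hb : b < n) (f : ℕ → ℝ) :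
    ∑ c ∈ Finset.Ico a (b + 1), f c =
      ∑ c ∈ Finset.range n, (if c ∈ Finset.Ico a (b + 1) then f c else 0) := by
  rw [← Finset.sum_filter]
  refine Finset.sum_congr ?_ fun _ _ => rfl
  ext c
  simp only [Finset.mem_Ico, Finset.mem_filter, Finset.mem_range]
  omega

theorem pf_EXQ : T_EXQ := by
  intro ν _ hν ℓ a b hab
  refine ⟨fun u => ⟨AA_pos ν hν ℓ u, ?_⟩, ?_⟩
  · obtain ⟨h1, h2⟩ := gen ν hν ℓ (fun c => if c ∈ Finset.Ico a (b + 1) then u else 0) (b + 1)
    have e : ∀ x : ℕ → ℝ, u * cD ℓ x a b = ∑ c ∈ Finset.range (b + 1),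
        (if c ∈ Finset.Ico a (b + 1) then u else 0) * xi ℓ x c := by
      intro x
      rw [cD_eq ℓ x a b hab, Ico_as_range (b + 1) a b (Nat.lt_succ_self b), Finset.mul_sum]
      refine Finset.sum_congr rfl fun c _ => ?_
      split_ifs <;> ring
    simp only [e]
    refine ⟨h1, ?_⟩
    rw [h2]
    have h3 : ∀ c ∈ Finset.range (b + 1), AA ν ℓ (if c ∈ Finset.Ico a (b + 1) then u else 0) =
        if c ∈ Finset.Ico a (b + 1) then AA ν ℓ u else 1 := by
      intro c _
      split_ifs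
      · rfl
      · exact AA_zero ν ℓ
    rw [Finset.prod_congr rfl h3, ← Finset.prod_filter, Finset.prod_const]
    congr 1
    have : (Finset.range (b + 1)).filter (fun c => c ∈ Finset.Ico a (b + 1)) =
        Finset.Ico a (b + 1) := by
      ext c
      simp only [Finset.mem_Ico, Finset.mem_filter, Finset.mem_range]
      omega
    rw [this, Nat.card_Ico]
  · intro γ s r hr hr1 hg hs a' b' hab'
    obtain ⟨h1, h2⟩ := gen ν hν ℓ (fun c => (if c ∈ Finset.Ico a (b + 1) then γ - s else 0) +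
      (if c ∈ Finset.Ico a' (b' + 1) then s else 0)) (max b b' + 1)
    have e : ∀ x : ℕ → ℝ, γ * cD ℓ x a b + s * (cD ℓ x a' b' - cD ℓ x a b) =
        ∑ c ∈ Finset.range (max b b' + 1), ((if c ∈ Finset.Ico a (b + 1) then γ - s else 0) +
          (if c ∈ Finset.Ico a' (b' + 1) then s else 0)) * xi ℓ x c := by
      intro x
      rw [cD_eq ℓ x a b hab, cD_eq ℓ x a' b' hab',
        Ico_as_range (max b b' + 1) a b (Nat.lt_succ_of_le (le_max_left _ _)),
        Ico_as_range (max b b' + 1) a' b' (Nat.lt_succ_of_le (le_max_right _ _)),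
        ← Finset.sum_sub_distrib, Finset.mul_sum, Finset.mul_sum, ← Finset.sum_add_distrib]
      refine Finset.sum_congr rfl fun c _ => ?_
      split_ifs <;> ring
    simp only [e]
    refine ⟨h1, ?_⟩
    rw [h2]
    have hA0 := AA_pos ν hν ℓ γ
    have h3 : ∏ c ∈ Finset.range (max b b' + 1),
        AA ν ℓ ((if c ∈ Finset.Ico a (b + 1) then γ - s else 0) +
          (if c ∈ Finset.Ico a' (b' + 1) then s else 0)) ≤
        ∏ c ∈ Finset.range (max b b' + 1), ((if c ∈ Finset.Ico a (b + 1) then AA ν ℓ γ else 1) *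
          if c ∈ symmDiff (Finset.Ico a (b + 1)) (Finset.Ico a' (b' + 1)) then r else 1) := by
      refine Finset.prod_le_prod (fun c _ => (AA_pos ν hν ℓ _).le) fun c _ => ?_
      have hsd := @Finset.mem_symmDiff _ _ (Finset.Ico a (b + 1)) (Finset.Ico a' (b' + 1)) c
      by_cases c1 : c ∈ Finset.Ico a (b + 1) <;> by_cases c2 : c ∈ Finset.Ico a' (b' + 1)
      · rw [if_pos c1, if_pos c2, if_pos c1, if_neg (by rw [hsd]; tauto), mul_one]
        rw [show γ - s + s = γ by ring]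
      · rw [if_pos c1, if_neg c2, if_pos c1, if_pos (by rw [hsd]; tauto), add_zero, mul_comm]
        exact hg
      · rw [if_neg c1, if_pos c2, if_neg c1, if_pos (by rw [hsd]; tauto), zero_add, one_mul]
        exact hs
      · rw [if_neg c1, if_neg c2, if_neg c1, if_neg (by rw [hsd]; tauto), zero_add, one_mul, AA_zero]
    refine h3.trans (le_of_eq ?_)
    rw [Finset.prod_mul_distrib, ← Finset.prod_filter, ← Finset.prod_filter, Finset.prod_const,
      Finset.prod_const]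
    have c1 : (Finset.range (max b b' + 1)).filter (fun c => c ∈ Finset.Ico a (b + 1)) =
        Finset.Ico a (b + 1) := by
      ext c
      simp only [Finset.mem_Ico, Finset.mem_filter, Finset.mem_range]
      omega
    have c2 : (Finset.range (max b b' + 1)).filter
        (fun c => c ∈ symmDiff (Finset.Ico a (b + 1)) (Finset.Ico a' (b' + 1))) =
        symmDiff (Finset.Ico a (b + 1)) (Finset.Ico a' (b' + 1)) := by
      ext c
      simp only [Finset.mem_Ico, Finset.mem_filter, Finset.mem_range, Finset.mem_symmDiff]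
      omega
    rw [c1, c2, Nat.card_Ico]
    rfl

end Pool.Agent.H18.SLN
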