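import Pool.Agent.H98.SLN.Targets

/-!
Module VAR of the board sln_modules.
-/

set_option autoImplicit false

open MeasureTheory ProbabilityTheory Filter Topology
open scoped ENNReal
open Pool.Agent.H95 Pool.Agent.H95.Cop
open Pool.Agent.H98.SLN

namespace Pool.Agent.H18.SLN

theorem H_shift (x : ℕ → ℝ) (y j : ℕ) : H x y (y + j) = H (shift y x) 0 j := by
  unfold H
  rw [Finset.sum_Ico_eq_sum_range, Finset.sum_Ico_eq_sum_range]
  simp only [Nat.add_sub_cancel_left, Nat.sub_zero, Nat.zero_add, shift_apply]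
  refine Finset.sum_congr rfl fun i _ => ?_
  rw [Nat.add_comm]

theorem meas_lc : Measurable lc := by
  unfold lc
  exact Real.measurable_log.comp (Real.measurable_cosh.comp (measurable_id.div_const 2))

theorem meas_H (y z : ℕ) : Measurable fun x : ℕ → ℝ => H x y z := by
  unfold H
  exact Finset.measurable_sum _ fun i _ => measurable_pi_apply i

/-- the centered value of one excursion -/
noncomputable def GG (ν : Measure ℝ) (y j : ℕ) (x : ℕ → ℝ) : ℝ :=
  lc (H x y (y + j)) - ∫ x' : ℕ → ℝ, lc (H x' 0 j) ∂(iid ν)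

theorem meas_GG (ν : Measure ℝ) (y j : ℕ) : Measurable (GG ν y j) := by
  unfold GG
  exact (meas_lc.comp (meas_H y (y + j))).sub_const _

theorem GG_shift (ν : Measure ℝ) (y j : ℕ) (x : ℕ → ℝ) : GG ν y j x = GG ν 0 j (shift y x) := by
  unfold GG
  rw [H_shift, Nat.zero_add]

/-- The second moment of `c + G`. -/
theorem GG_int (ν : Measure ℝ) [IsProbabilityMeasure ν] (Bc : ℝ) (j y : ℕ) (c : ℝ)
    (h1 : Integrable (fun x : ℕ → ℝ => lc (H x 0 j)) (iid ν))
    (h2 : Integrable (fun x : ℕ → ℝ => lc (H x 0 j) ^ 2) (iid ν))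
    (h3 : ∫ x : ℕ → ℝ, (lc (H x 0 j) - ∫ x' : ℕ → ℝ, lc (H x' 0 j) ∂(iid ν)) ^ 2 ∂(iid ν) ≤ Bc * j) :
    Integrable (fun x : ℕ → ℝ => (c + GG ν y j x) ^ 2) (iid ν) ∧
      ∫ x : ℕ → ℝ, (c + GG ν y j x) ^ 2 ∂(iid ν) ≤ c ^ 2 + Bc * j := by
  set m := ∫ x' : ℕ → ℝ, lc (H x' 0 j) ∂(iid ν) with hm
  have e0 : ∀ x : ℕ → ℝ, GG ν 0 j x = lc (H x 0 j) - m := by
    intro x
    unfold GG
    rw [Nat.zero_add]
  have i1 : Integrable (fun x : ℕ → ℝ => GG ν 0 j x) (iid ν) := by
    simp only [e0]
    exact h1.sub (integrable_const _)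
  have i2 : Integrable (fun x : ℕ → ℝ => GG ν 0 j x ^ 2) (iid ν) := by
    have e : (fun x : ℕ → ℝ => GG ν 0 j x ^ 2) =
        fun x : ℕ → ℝ => lc (H x 0 j) ^ 2 - 2 * m * lc (H x 0 j) + m ^ 2 := by
      funext x
      rw [e0]
      ring
    rw [e]
    exact (h2.sub (h1.const_mul _)).add (integrable_const _)
  have z1 : ∫ x : ℕ → ℝ, GG ν 0 j x ∂(iid ν) = 0 := by
    simp only [e0]
    rw [integral_sub h1 (integrable_const _), integral_const]
    simp [hm]
  have i3 : Integrable (fun x : ℕ → ℝ => (c + GG ν 0 j x) ^ 2) (iid ν) := by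
    have e : (fun x : ℕ → ℝ => (c + GG ν 0 j x) ^ 2) =
        fun x : ℕ → ℝ => c ^ 2 + 2 * c * GG ν 0 j x + GG ν 0 j x ^ 2 := by
      funext x
      ring
    rw [e]
    exact ((integrable_const _).add (i1.const_mul _)).add i2
  have z3 : ∫ x : ℕ → ℝ, (c + GG ν 0 j x) ^ 2 ∂(iid ν) = c ^ 2 + ∫ x : ℕ → ℝ, GG ν 0 j x ^ 2 ∂(iid ν) := by
    have e : (fun x : ℕ → ℝ => (c + GG ν 0 j x) ^ 2) =
        fun x : ℕ → ℝ => (c ^ 2 + 2 * c * GG ν 0 j x) + GG ν 0 j x ^ 2 := by
      funext x
      ring
    have k0 : Integrable (fun x : ℕ → ℝ => 2 * c * GG ν 0 j x) (iid ν) := i1.const_mul _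
    have k1 : Integrable (fun x : ℕ → ℝ => c ^ 2 + 2 * c * GG ν 0 j x) (iid ν) :=
      (integrable_const _).add k0
    rw [e, integral_add k1 i2, integral_add (integrable_const _) k0, integral_const,
      integral_const_mul, z1]
    simp
  have hsh := measurePreserving_shift (ν := ν) y
  have e : (fun x : ℕ → ℝ => (c + GG ν y j x) ^ 2) =
      (fun x : ℕ → ℝ => (c + GG ν 0 j x) ^ 2) ∘ (shift y) := by
    funext x
    simp only [Function.comp]
    rw [GG_shift]
  rw [e]
  refine ⟨hsh.integrable_comp_of_integrable i3, ?_⟩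
  have e2 : ∫ x : ℕ → ℝ, ((fun x : ℕ → ℝ => (c + GG ν 0 j x) ^ 2) ∘ (shift y)) x ∂(iid ν) =
      ∫ x : ℕ → ℝ, (c + GG ν 0 j x) ^ 2 ∂(iid ν) := by
    have := integral_map (μ := iid ν) (φ := shift y) hsh.measurable.aemeasurable
      (f := fun x : ℕ → ℝ => (c + GG ν 0 j x) ^ 2)
      (by rw [hsh.map_eq]; exact i3.aestronglyMeasurable)
    rw [hsh.map_eq] at this
    exact this.symm
  rw [e2, z3]
  have h3' : ∫ x : ℕ → ℝ, GG ν 0 j x ^ 2 ∂(iid ν) ≤ Bc * j := by
    simp only [e0]
    exact h3
  linarith

/-- The recursion. -/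
theorem rec (K : PMF ℕ) (q : ℕ) (ν : Measure ℝ) (n y : ℕ) (c : ℝ) (x : ℕ → ℝ) :
    Sq K q x (n + 1) y - mS K q ν (n + 1) + c * uq K q (n + 1) =
      ∑ j : Fin (n + 1), kq K q (j + 1) * (Sq K q x (n - j) (y + (j + 1)) - mS K q ν (n - j) +
        (c + GG ν y (j + 1) x) * uq K q (n - j)) := by
  rw [Sq, mS]
  have hu : uq K q (n + 1) = ∑ j : Fin (n + 1), kq K q (j + 1) * uq K q (n - j) := by
    unfold uq
    rw [uu]
  rw [hu, Finset.mul_sum, ← Finset.sum_sub_distrib, ← Finset.sum_add_distrib]
  refine Finset.sum_congr rfl fun j _ => ?_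
  unfold GG
  ring

theorem pf_VAR (hUQB : T_UQB) (hINR : T_INR) : T_VAR := by
  intro K q ν _ Bc hBc hyp n
  obtain ⟨hu0, huS, hum, hmeas, hsh⟩ := hUQB K q
  induction n using Nat.strong_induction_on with
  | _ n ih =>
    intro y c
    rcases n with _ | n
    · have e : ∀ x : ℕ → ℝ, (Sq K q x 0 y - mS K q ν 0 + c * uq K q 0) ^ 2 = c ^ 2 := by
        intro x
        rw [Sq, mS]
        have : uq K q 0 = 1 := by
          unfold uq
          exact uu_zero _
        rw [this]
        ring
      simp only [e]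
      rw [lintegral_const]
      have : uq K q 0 = 1 := by
        unfold uq
        exact uu_zero _
      rw [this]
      simp
    · have hkq0 : ∀ j : ℕ, 0 ≤ kq K q j := by
        intro j
        unfold kq
        split_ifs
        · unfold kk
          exact ENNReal.toReal_nonneg
        · exact le_rfl
      set U := uq K q (n + 1) with hU
      have hUe : U = ∑ j : Fin (n + 1), kq K q (j + 1) * uq K q (n - j) := by
        rw [hU]
        unfold uq
        rw [uu]
      have hU0 : 0 ≤ U := (hu0 (n + 1)).1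
      -- the summands
      set Z : Fin (n + 1) → (ℕ → ℝ) → ℝ := fun j x =>
        Sq K q x (n - j) (y + (j + 1)) - mS K q ν (n - j) +
          (c + GG ν y (j + 1) x) * uq K q (n - j) with hZ
      have hZm : ∀ j, Measurable (Z j) := by
        intro j
        rw [hZ]
        exact (((hmeas _ _).1).sub_const _).add
          ((measurable_const.add (meas_GG ν y (j + 1))).mul_const _)
      have hZ0 : ∀ (j : Fin (n + 1)) x, uq K q (n - j) = 0 → Z j x = 0 := by
        intro j x h0
        simp only [hZ]
        rw [huS _ x _ h0, hum ν _ h0, h0]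
        ring
      -- Cauchy-Schwarz
      have hCS : ∀ x : ℕ → ℝ, (Sq K q x (n + 1) y - mS K q ν (n + 1) + c * U) ^ 2 ≤
          ∑ j : Fin (n + 1), U * (kq K q (j + 1) / uq K q (n - j)) * Z j x ^ 2 := by
        intro x
        rw [hU, rec, ← hU]
        have h1 := Finset.sum_sq_le_sum_mul_sum_of_sq_le_mul (Finset.univ : Finset (Fin (n + 1)))
          (r := fun j => kq K q (j + 1) * Z j x)
          (f := fun j => kq K q (j + 1) * uq K q (n - j))
          (g := fun j => kq K q (j + 1) / uq K q (n - j) * Z j x ^ 2)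
          (fun j _ => mul_nonneg (hkq0 _) (hu0 _).1)
          (fun j _ => mul_nonneg (div_nonneg (hkq0 _) (hu0 _).1) (sq_nonneg _))
          (fun j _ => by
            by_cases h0 : uq K q (n - j) = 0
            · rw [hZ0 j x h0, h0]
              simp
            · refine le_of_eq ?_
              field_simp)
        rw [← hUe, Finset.mul_sum] at h1
        refine h1.trans (le_of_eq ?_)
        refine Finset.sum_congr rfl fun j _ => ?_
        ring
      -- one summand
      have hone : ∀ j : Fin (n + 1), kq K q (j + 1) ≠ 0 →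
          ∫⁻ x : ℕ → ℝ, ENNReal.ofReal (Z j x ^ 2) ∂(iid ν) ≤
            ENNReal.ofReal (uq K q (n - j) ^ 2 * (c ^ 2 + Bc * ((n + 1 : ℕ) : ℝ))) := by
        intro j hj
        have hjq : (j : ℕ) + 1 ≤ q := by
          by_contra hcon
          apply hj
          unfold kq
          rw [if_neg hcon]
        obtain ⟨p1, p2, p3⟩ := hyp (j + 1) (by omega) hjq
        obtain ⟨g1, g2⟩ := GG_int ν Bc (j + 1) y c p1 p2 (by exact_mod_cast p3)
        set B := y + ((j : ℕ) + 1) with hB
        set Ψ : ℝ × (ℕ → ℝ) → ℝ≥0∞ := fun p => ENNReal.ofReal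
          ((Sq K q p.2 (n - j) 0 - mS K q ν (n - j) + p.1 * uq K q (n - j)) ^ 2) with hΨ
        have hΨm : Measurable Ψ := by
          rw [hΨ]
          refine Measurable.ennreal_ofReal (Measurable.pow_const ?_ 2)
          exact ((((hmeas (n - j) 0).1).comp measurable_snd).sub_const _).add
            (measurable_fst.mul_const _)
        have hfdep : DepLt B (fun x : ℕ → ℝ => c + GG ν y (j + 1) x) := by
          intro x x' hxx
          have : H x y (y + (j + 1)) = H x' y (y + (j + 1)) := by
            unfold H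
            refine Finset.sum_congr rfl fun i hi => ?_
            exact hxx i (Finset.mem_Ico.mp hi).2
          show c + GG ν y (j + 1) x = c + GG ν y (j + 1) x'
          unfold GG
          rw [this]
        have hr := hINR ν B (fun x => c + GG ν y (j + 1) x) Ψ
          (measurable_const.add (meas_GG ν y (j + 1))) hfdep hΨm
        have e1 : ∀ x : ℕ → ℝ, ENNReal.ofReal (Z j x ^ 2) = Ψ (c + GG ν y (j + 1) x, shift B x) := by
          intro x
          simp only [hΨ, hZ]
          rw [hsh, Nat.zero_add]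
        simp only [e1]
        rw [hr]
        have hin : ∀ x : ℕ → ℝ, ∫⁻ x', Ψ (c + GG ν y (j + 1) x, x') ∂(iid ν) ≤
            ENNReal.ofReal (uq K q (n - j) ^ 2 * ((c + GG ν y (j + 1) x) ^ 2 + Bc * ((n - j : ℕ) : ℝ))) := by
          intro x
          exact ih (n - j) (by omega) 0 (c + GG ν y (j + 1) x)
        refine (lintegral_mono hin).trans ?_
        have g3 : Integrable (fun x : ℕ → ℝ => uq K q (n - j) ^ 2 *
            ((c + GG ν y (j + 1) x) ^ 2 + Bc * ((n - j : ℕ) : ℝ))) (iid ν) :=
          (g1.add (integrable_const _)).const_mul _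
        rw [← ofReal_integral_eq_lintegral_ofReal g3 (Eventually.of_forall fun x => by positivity)]
        apply ENNReal.ofReal_le_ofReal
        rw [integral_const_mul, integral_add g1 (integrable_const _), integral_const]
        simp only [probReal_univ, one_smul]
        refine mul_le_mul_of_nonneg_left ?_ (by positivity)
        have hc : ((n - j : ℕ) : ℝ) = (n : ℝ) - (j : ℕ) := by
          have : (j : ℕ) ≤ n := by omega
          push_cast [Nat.cast_sub this]
          ring
        rw [hc]
        push_cast at g2 ⊢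
        linarith
      -- conclusion
      calc ∫⁻ x : ℕ → ℝ, ENNReal.ofReal ((Sq K q x (n + 1) y - mS K q ν (n + 1) + c * U) ^ 2) ∂(iid ν)
          ≤ ∫⁻ x : ℕ → ℝ, ∑ j : Fin (n + 1), ENNReal.ofReal (U * (kq K q (j + 1) / uq K q (n - j))) *
            ENNReal.ofReal (Z j x ^ 2) ∂(iid ν) := by
            refine lintegral_mono fun x => ?_
            refine (ENNReal.ofReal_le_ofReal (hCS x)).trans (le_of_eq ?_)
            rw [ENNReal.ofReal_sum_of_nonneg]
            · refine Finset.sum_congr rfl fun j _ => ?_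
              rw [ENNReal.ofReal_mul]
              exact mul_nonneg hU0 (div_nonneg (hkq0 _) (hu0 _).1)
            · intro j _
              exact mul_nonneg (mul_nonneg hU0 (div_nonneg (hkq0 _) (hu0 _).1)) (sq_nonneg _)
        _ = ∑ j : Fin (n + 1), ENNReal.ofReal (U * (kq K q (j + 1) / uq K q (n - j))) *
            ∫⁻ x : ℕ → ℝ, ENNReal.ofReal (Z j x ^ 2) ∂(iid ν) := by
            rw [lintegral_finsetSum]
            · refine Finset.sum_congr rfl fun j _ => ?_
              rw [lintegral_const_mul]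
              exact ((hZm j).pow_const 2).ennreal_ofReal
            · intro j _
              exact (((hZm j).pow_const 2).ennreal_ofReal).const_mul _
        _ ≤ ∑ j : Fin (n + 1), ENNReal.ofReal (U * (kq K q (j + 1) * uq K q (n - j)) *
            (c ^ 2 + Bc * ((n + 1 : ℕ) : ℝ))) := by
            refine Finset.sum_le_sum fun j _ => ?_
            by_cases hk : kq K q (j + 1) = 0
            · rw [hk]
              simp
            · refine (mul_le_mul_right (hone j hk) _).trans ?_
              rw [← ENNReal.ofReal_mul (mul_nonneg hU0 (div_nonneg (hkq0 _) (hu0 _).1))]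
              apply ENNReal.ofReal_le_ofReal
              apply le_of_eq
              by_cases h0 : uq K q (n - j) = 0
              · rw [h0]
                ring
              · field_simp
        _ = ENNReal.ofReal (U ^ 2 * (c ^ 2 + Bc * ((n + 1 : ℕ) : ℝ))) := by
            rw [← ENNReal.ofReal_sum_of_nonneg]
            · congr 1
              rw [← Finset.sum_mul, ← Finset.mul_sum, ← hUe]
              ring
            · intro j _
              have := (hu0 (n - j)).1
              have := hkq0 (j + 1)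
              positivity

end Pool.Agent.H18.SLN
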